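import Pool.Agent.N566.VV.Stm4
import Pool.Agent.N346.VV.Tw

/-!
# The operator of the tangle of a tree, with the exact framing factor (S_TWE)

Project VV (helper566); adapted from `Pool.Agent.N346.VV.Tw` (helper346) by helper663.
-/

set_option autoImplicit false
set_option linter.unusedSectionVars false

namespace Pool.Agent.N663.VV

open Pool.Agent.H835R2.Knot
open Pool.Agent.H550R3.Jones (br brf Adm crossP crossN)
open Pool.Agent.N566.VV
open Pool.Agent.N346.VV (opD_append Xl_smul smul_Xl Bl_smul opD_smul Xl_mul Xl_one Xl3 Xl3_mul Xl_on12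
  Xl_on23 cap3 cap2 rev_rev kap_cup cd plain_pos plain_neg plain_death plain_birth)
open Finset

theorem fr_two {N : ℕ} (hN : Odd N) : fr N + fr N = (N : ℤ) ^ 2 - 1 := by
  obtain ⟨k, rfl⟩ := hN
  unfold fr
  have h : (((2 * k + 1 : ℕ) : ℤ) ^ 2 - 1) = 2 * (2 * (k : ℤ) ^ 2 + 2 * k) := by
    push_cast
    ring
  rw [h, Int.mul_ediv_cancel_left _ (by norm_num)]
  ring

/-! ### words -/

/-- a family of matrices -/
abbrev Fam : Type := (N : ℕ) → ℂ → Matrix (Fin N × Fin N) (Fin N × Fin N) ℂ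

/-- the operator of `D` is the matrix `B N v` at `i`, up to a power of `v ^ (N² - 1)` independent of
`N` -/
def Rep (D : Word) (A : Front) (B : Fam) (i : ℕ) : Prop :=
  ∃ c : ℤ, ∀ N : ℕ, Odd N → ∀ v : ℂ, Adm N v → ∀ f : F (Fin N),
    opD (datJ N v) D A f = v ^ (c * ((N : ℤ) ^ 2 - 1)) • Xl (B N v) i f

theorem Rep.nil (A : Front) (i : ℕ) : Rep [] A (fun _ _ => 1) i :=
  ⟨0, fun N _ v _ f => by
    rw [zero_mul, zpow_zero, one_smul, Xl_one]
    rfl⟩

theorem Rep.append {D E : Word} {A : Front} {B B' : Fam} {i : ℕ} (h : Rep D A B i)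
    (h' : Rep E (run D A) B' i) : Rep (D ++ E) A (fun N v => B N v * B' N v) i := by
  obtain ⟨e, he⟩ := h
  obtain ⟨e', he'⟩ := h'
  refine ⟨e + e', fun N hN v hv f => ?_⟩
  rw [opD_append, he' N hN v hv, opD_smul, he N hN v hv, Xl_mul, smul_smul, add_mul,
    zpow_add₀ hv.1, mul_comm]

theorem Rep.pos (A : Front) (i : ℕ) : Rep [.pos i] A (fun N v => crossP N v) i := by
  by_cases h : A.dir i = A.dir (i + 1)
  · refine ⟨0, fun N _ v hv f => ?_⟩
    change (if A.dir i = A.dir (i + 1) then (datJ N v).k else (datJ N v).k') •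
      Xl (datJ N v).P i f = _
    rw [if_pos h]
    change v ^ (-fr N) • Xl (v ^ fr N • crossP N v) i f = _
    rw [smul_Xl, smul_smul, ← zpow_add₀ hv.1, neg_add_cancel, zero_mul]
  · refine ⟨1, fun N hN v hv f => ?_⟩
    change (if A.dir i = A.dir (i + 1) then (datJ N v).k else (datJ N v).k') •
      Xl (datJ N v).P i f = _
    rw [if_neg h]
    change v ^ (fr N) • Xl (v ^ fr N • crossP N v) i f = _
    rw [smul_Xl, smul_smul, ← zpow_add₀ hv.1, fr_two hN, one_mul]

theorem Rep.neg (A : Front) (i : ℕ) : Rep [.neg i] A (fun N v => crossN N v) i := by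
  by_cases h : A.dir i = A.dir (i + 1)
  · refine ⟨0, fun N _ v hv f => ?_⟩
    change (if A.dir i = A.dir (i + 1) then (datJ N v).k' else (datJ N v).k) •
      Xl (datJ N v).Q i f = _
    rw [if_pos h]
    change v ^ (fr N) • Xl (v ^ (-fr N) • crossN N v) i f = _
    rw [smul_Xl, smul_smul, ← zpow_add₀ hv.1, add_neg_cancel, zero_mul]
  · refine ⟨-1, fun N hN v hv f => ?_⟩
    change (if A.dir i = A.dir (i + 1) then (datJ N v).k' else (datJ N v).k) •
      Xl (datJ N v).Q i f = _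
    rw [if_neg h]
    change v ^ (-fr N) • Xl (v ^ (-fr N) • crossN N v) i f = _
    rw [smul_Xl, smul_smul, ← zpow_add₀ hv.1, ← neg_add, fr_two hN, neg_mul, one_mul]

theorem Rep.posN (i n : ℕ) : ∀ (D : Word) (A : Front),
    D.map plain = List.replicate n (.pos i) → Rep D A (fun N v => crossP N v ^ n) i := by
  induction n with
  | zero =>
    intro D A h
    rw [List.replicate_zero, List.map_eq_nil_iff] at h
    subst h
    simp only [pow_zero]
    exact Rep.nil A i
  | succ n ih =>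
    intro D A h
    rw [List.replicate_succ, List.map_eq_cons_iff] at h
    obtain ⟨p, w, rfl, hp, hw⟩ := h
    rw [plain_pos hp]
    simp only [pow_succ']
    exact (Rep.pos A i).append (ih w _ hw)

theorem Rep.negN (i n : ℕ) : ∀ (D : Word) (A : Front),
    D.map plain = List.replicate n (.neg i) → Rep D A (fun N v => crossN N v ^ n) i := by
  induction n with
  | zero =>
    intro D A h
    rw [List.replicate_zero, List.map_eq_nil_iff] at h
    subst h
    simp only [pow_zero]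
    exact Rep.nil A i
  | succ n ih =>
    intro D A h
    rw [List.replicate_succ, List.map_eq_cons_iff] at h
    obtain ⟨p, w, rfl, hp, hw⟩ := h
    rw [plain_neg hp]
    simp only [pow_succ']
    exact (Rep.neg A i).append (ih w _ hw)

theorem Rep.cross (i : ℕ) (a : ℤ) (D : Word) (A : Front)
    (h : D.map plain = crossW i a) :
    Rep D A (fun N v => if 0 ≤ a then crossP N v ^ a.toNat else crossN N v ^ (-a).toNat) i := by
  unfold crossW at h
  by_cases ha : 0 ≤ a
  · rw [if_pos ha] at h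
    simp only [if_pos ha]
    exact Rep.posN i _ D A h
  · rw [if_neg ha] at h
    simp only [if_neg ha]
    exact Rep.negN i _ D A h

/-- words of crossings on three strands -/
theorem Rep.three {D : Word} {A : Front} {i : ℕ} {B : Fam} :
    (Rep D A B i → ∃ e : ℤ, ∀ N : ℕ, Odd N → ∀ v : ℂ, Adm N v → ∀ f : F (Fin N),
      opD (datJ N v) D A f = v ^ (e * ((N : ℤ) ^ 2 - 1)) • Xl3 (on12 (B N v)) i f) ∧
    (Rep D A B (i + 1) → ∃ e : ℤ, ∀ N : ℕ, Odd N → ∀ v : ℂ, Adm N v → ∀ f : F (Fin N),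
      opD (datJ N v) D A f = v ^ (e * ((N : ℤ) ^ 2 - 1)) • Xl3 (on23 (B N v)) i f) := by
  constructor
  · rintro ⟨e, he⟩
    refine ⟨e, fun N hN v hv f => ?_⟩
    rw [he N hN v hv, Xl_on12]
  · rintro ⟨e, he⟩
    refine ⟨e, fun N hN v hv f => ?_⟩
    rw [he N hN v hv, Xl_on23]

theorem Rep.belt (i : ℕ) (D : Word) (A : Front)
    (h : D.map plain = beltW i) : Rep D A (fun N v => Pool.Agent.N566.VV.belt N v) i := by
  unfold beltW at h
  obtain ⟨p1, w1, rfl, h1, h⟩ := List.map_eq_cons_iff.1 h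
  obtain ⟨p2, w2, rfl, h2, h⟩ := List.map_eq_cons_iff.1 h
  obtain ⟨p3, w3, rfl, h3, h⟩ := List.map_eq_cons_iff.1 h
  obtain ⟨p4, w4, rfl, h4, h⟩ := List.map_eq_cons_iff.1 h
  obtain ⟨p5, w5, rfl, h5, h⟩ := List.map_eq_cons_iff.1 h
  obtain ⟨p6, w6, rfl, h6, h⟩ := List.map_eq_cons_iff.1 h
  rw [List.map_eq_nil_iff] at h
  subst h
  obtain ⟨b, rfl⟩ := plain_birth h1
  rw [plain_pos h2, plain_pos h3, plain_pos h4, plain_pos h5, plain_death h6]
  obtain ⟨A1, hA1⟩ : ∃ A1 : Front, A1 = (Piece.birth (i + 2) b).act A := ⟨_, rfl⟩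
  obtain ⟨A2, hA2⟩ : ∃ A2 : Front, A2 = (Piece.pos (i + 1)).act A1 := ⟨_, rfl⟩
  obtain ⟨A3, hA3⟩ : ∃ A3 : Front, A3 = (Piece.pos i).act A2 := ⟨_, rfl⟩
  obtain ⟨A4, hA4⟩ : ∃ A4 : Front, A4 = (Piece.pos i).act A3 := ⟨_, rfl⟩
  obtain ⟨e1, he1⟩ := (Rep.three (i := i)).2 (Rep.pos A1 (i + 1))
  obtain ⟨e2, he2⟩ := (Rep.three (i := i)).1 (Rep.pos A2 i)
  obtain ⟨e3, he3⟩ := (Rep.three (i := i)).1 (Rep.pos A3 i)
  obtain ⟨e4, he4⟩ := (Rep.three (i := i)).2 (Rep.pos A4 (i + 1))
  refine ⟨e1 + (e2 + (e3 + e4)), fun N hN v hv f => ?_⟩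
  have key : opD (datJ N v) [.birth (i + 2) b, .pos (i + 1), .pos i, .pos i, .pos (i + 1),
      .death (i + 2)] A f = Bl (datJ N v) (i + 2) (opD (datJ N v) [.pos (i + 1)] A1
        (opD (datJ N v) [.pos i] A2 (opD (datJ N v) [.pos i] A3 (opD (datJ N v) [.pos (i + 1)] A4
          (Dl (datJ N v) (i + 2) f))))) := by
    rw [hA4, hA3, hA2, hA1]
    rfl
  rw [key, he4 N hN v hv, opD_smul, opD_smul, opD_smul, he3 N hN v hv, opD_smul, opD_smul,
    he2 N hN v hv, opD_smul, he1 N hN v hv, Xl3_mul, Xl3_mul, Xl3_mul, Matrix.mul_assoc,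
    Matrix.mul_assoc]
  simp only [smul_smul, Bl_smul]
  rw [cap3 (datJ N v) (rev_rev N v)]
  have h7 : v ^ ((e1 + (e2 + (e3 + e4))) * ((N : ℤ) ^ 2 - 1)) =
      v ^ (e4 * ((N : ℤ) ^ 2 - 1)) * (v ^ (e3 * ((N : ℤ) ^ 2 - 1)) *
        (v ^ (e2 * ((N : ℤ) ^ 2 - 1)) * v ^ (e1 * ((N : ℤ) ^ 2 - 1)))) := by
    rw [add_mul, add_mul, add_mul, zpow_add₀ hv.1, zpow_add₀ hv.1, zpow_add₀ hv.1]
    ring
  have h8 : (fun p q : Fin N × Fin N => ∑ x, (datJ N v).c x * (datJ N v).d x *
      (on23 (crossP N v) * (on12 (crossP N v) * (on12 (crossP N v) * on23 (crossP N v))))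
        (p.1, (p.2, x)) (q.1, (q.2, x))) = Pool.Agent.N566.VV.belt N v := by
    funext p q
    unfold Pool.Agent.N566.VV.belt
    refine Finset.sum_congr rfl fun x _ => ?_
    rw [cd hN hv]
  rw [h7, h8]

theorem Rep.rot (i : ℕ) (D : Word) (A : Front) (b : Bool) (B : Fam)
    (h : Rep D ((Piece.birth (i + 2) b).act A) B (i + 1)) :
    Rep (.birth (i + 2) b :: D ++ [.death i]) A
      (fun N v => Pool.Agent.N566.VV.rot N v (B N v)) i := by
  obtain ⟨e, he⟩ := h
  refine ⟨e, fun N hN v hv f => ?_⟩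
  have key : opD (datJ N v) (.birth (i + 2) b :: D ++ [.death i]) A f =
      Bl (datJ N v) (i + 2) (opD (datJ N v) D ((Piece.birth (i + 2) b).act A)
        (Dl (datJ N v) i f)) := by
    rw [List.cons_append]
    change Bl (datJ N v) (i + 2) (opD (datJ N v) (D ++ [.death i])
      ((Piece.birth (i + 2) b).act A) f) = _
    rw [opD_append]
    rfl
  rw [key, he N hN v hv, Bl_smul, cap2 (datJ N v) (rev_rev N v)]
  congr 2
  funext p q
  unfold Pool.Agent.N566.VV.rot
  change kap N v p.1 * (kap N v (Fin.rev (Fin.rev q.2) : Fin N))⁻¹ *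
    B N v (p.2, Fin.rev q.2) (Fin.rev p.1, q.1) = _
  rw [Fin.rev_rev, kap_cup hv]

theorem rep_tangle (t : Tr) : ∀ (i : ℕ) (D : Word) (A : Front),
    D.map plain = tangleW i t → Rep D A (fun N v => tangle N v t) i := by
  induction t with
  | single b a =>
    intro i D A h
    change D.map plain = (if b then beltW i else []) ++ crossW i a at h
    rw [List.map_eq_append_iff] at h
    obtain ⟨D1, D2, rfl, h1, h2⟩ := h
    have h3 : Rep D1 A (fun N v => if b then Pool.Agent.N566.VV.belt N v else 1) i := by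
      cases b with
      | true => exact Rep.belt i D1 A h1
      | false =>
        have h4 : D1 = [] := List.map_eq_nil_iff.1 h1
        subst h4
        exact Rep.nil A i
    exact h3.append (Rep.cross i a D2 _ h2)
  | join t c iht ihc =>
    intro i D A h
    change D.map plain = tangleW i t ++ (.birth (i + 2) true :: tangleW (i + 1) c ++ [.death i]) at h
    rw [List.map_eq_append_iff] at h
    obtain ⟨D1, D2, rfl, h1, h2⟩ := h
    rw [List.cons_append, List.map_eq_cons_iff] at h2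
    obtain ⟨p, w, rfl, hp, hw⟩ := h2
    rw [List.map_eq_append_iff] at hw
    obtain ⟨D3, D4, rfl, h3, h4⟩ := hw
    rw [List.map_eq_cons_iff] at h4
    obtain ⟨p', w', rfl, hp', hw'⟩ := h4
    rw [List.map_eq_nil_iff] at hw'
    subst hw'
    obtain ⟨b, rfl⟩ := plain_birth hp
    rw [plain_death hp']
    exact (iht i D1 A h1).append (Rep.rot i D3 _ b _ (ihc (i + 1) D3 _ h3))

theorem s_twe : S_TWE := by
  intro t i D A h
  exact rep_tangle t i D A h

end Pool.Agent.N663.VV
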